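import Mathlib

set_option autoImplicit false

namespace Pool.Agent.Results.MP_3aa442_co.OrderFour

open Matrix

/-- Symmetric doubly stochastic matrices. -/
def SDS (n : ℕ) : Set (Matrix (Fin n) (Fin n) ℝ) :=
  {A | A.IsSymm ∧ (∀ i j, 0 ≤ A i j) ∧ (∀ i, ∑ j, A i j = 1) ∧ ∀ j, ∑ i, A i j = 1}

/-- Zero diagonal, off-diagonal entries `1 / (n - 1)`. -/
noncomputable def C (n : ℕ) : Matrix (Fin n) (Fin n) ℝ :=
  fun i j => if i = j then 0 else 1 / ((n : ℝ) - 1)

/-- Determined by its spectrum among symmetric doubly stochastic matrices. -/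
def DS {n : ℕ} (A : Matrix (Fin n) (Fin n) ℝ) : Prop :=
  ∀ B ∈ SDS n, (∃ Q : (Matrix (Fin n) (Fin n) ℝ)ˣ, B = Q⁻¹ * A * Q) →
    ∃ σ : Equiv.Perm (Fin n), B = (σ.permMatrix ℝ)ᵀ * A * σ.permMatrix ℝ

noncomputable def A : Matrix (Fin 4) (Fin 4) ℝ :=
  !![1 / 2, 1 / 2, 0, 0; 1 / 2, 1 / 2, 0, 0; 0, 0, 0, 1; 0, 0, 1, 0]

theorem A_cube : A * A * A = A := by
  ext i j
  fin_cases i <;> fin_cases j <;> simp [A, Fin.sum_univ_four, mul_apply] <;> norm_num

theorem unit_row {a b c d : ℝ} (ha : 0 ≤ a) (hb : 0 ≤ b) (hc : 0 ≤ c) (hd : 0 ≤ d)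
    (h1 : a + b + c + d = 1) (h2 : a * a + b * b + c * c + d * d = 1) :
    a = 1 ∨ b = 1 ∨ c = 1 ∨ d = 1 := by
  have h3 : a * b + a * c + a * d + b * c + b * d + c * d = 0 := by nlinarith
  have := mul_nonneg ha hb
  have := mul_nonneg ha hc
  have := mul_nonneg ha hd
  have := mul_nonneg hb hc
  have := mul_nonneg hb hd
  have := mul_nonneg hc hd
  have e1 : a * (1 - a) = 0 := by nlinarith
  have e2 : b * (1 - b) = 0 := by nlinarith
  have e3 : c * (1 - c) = 0 := by nlinarith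
  rcases mul_eq_zero.1 e1 with e1 | e1
  · rcases mul_eq_zero.1 e2 with e2 | e2
    · rcases mul_eq_zero.1 e3 with e3 | e3
      · exact Or.inr (Or.inr (Or.inr (by linarith)))
      · exact Or.inr (Or.inr (Or.inl (by linarith)))
    · exact Or.inr (Or.inl (by linarith))
  · exact Or.inl (by linarith)

theorem core {a b c d e f g h k l : ℝ} (ha : 0 ≤ a) (hb : 0 ≤ b) (hc : 0 ≤ c) (hd : 0 ≤ d)
    (he : 0 ≤ e) (hf : 0 ≤ f) (hg : 0 ≤ g) (_hh : 0 ≤ h) (hk : 0 ≤ k) (hl : 0 ≤ l)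
    (r0 : a + b + c + d = 1) (r1 : b + e + f + g = 1) (r2 : c + f + h + k = 1)
    (r3 : d + g + k + l = 1) (ht : a + e + h + l = 1)
    (hq : a * a + b * b + c * c + d * d + (b * b + e * e + f * f + g * g) = 1)
    (u2 : c = 1 ∨ f = 1 ∨ h = 1 ∨ k = 1) (u3 : d = 1 ∨ g = 1 ∨ k = 1 ∨ l = 1) : k = 1 := by
  have p0 : 0 < a * a + b * b + c * c + d * d := by
    nlinarith [sq_nonneg (a - b), sq_nonneg (c - d), sq_nonneg (a + b - c - d)]
  have p1 : 0 < b * b + e * e + f * f + g * g := by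
    nlinarith [sq_nonneg (b - e), sq_nonneg (f - g), sq_nonneg (b + e - f - g)]
  have hc1 : c ≠ 1 := by rintro rfl; nlinarith
  have hd1 : d ≠ 1 := by rintro rfl; nlinarith
  have hf1 : f ≠ 1 := by rintro rfl; nlinarith
  have hg1 : g ≠ 1 := by rintro rfl; nlinarith
  rcases u2 with u | u | u | u
  · exact absurd u hc1
  · exact absurd u hf1
  · rcases u3 with v | v | v | v
    · exact absurd v hd1
    · exact absurd v hg1
    · exact v
    · linarith
  · exact u

theorem eq_A {B : Matrix (Fin 4) (Fin 4) ℝ} (hs : ∀ i j, B j i = B i j) (h0 : ∀ i j, 0 ≤ B i j)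
    (h1 : ∀ i, ∑ j, B i j = 1) (ht : ∑ i, B i i = 1) (hq : ∑ i, ∑ j, B i j * B i j = 3)
    (h2 : ∑ j, B 2 j * B 2 j = 1) (h3 : ∑ j, B 3 j * B 3 j = 1) : B = A := by
  have r0 := h1 0
  have r1 := h1 1
  have r2 := h1 2
  have r3 := h1 3
  rw [Fin.sum_univ_four, h2, h3] at hq
  simp only [Fin.sum_univ_four] at r0 r1 r2 r3 ht hq h2 h3
  have u2 := unit_row (h0 2 0) (h0 2 1) (h0 2 2) (h0 2 3) r2 h2
  have u3 := unit_row (h0 3 0) (h0 3 1) (h0 3 2) (h0 3 3) r3 h3
  have s1 := hs 0 1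
  have s2 := hs 0 2
  have s3 := hs 0 3
  have s4 := hs 1 2
  have s5 := hs 1 3
  have s6 := hs 2 3
  rw [s1] at r1 hq
  rw [s2, s4] at r2 u2
  rw [s3, s5, s6] at r3 u3
  have hk := core (h0 0 0) (h0 0 1) (h0 0 2) (h0 0 3) (h0 1 1) (h0 1 2) (h0 1 3) (h0 2 2) (h0 2 3)
    (h0 3 3) r0 r1 r2 r3 ht (by linarith) u2 u3
  have := h0 0 2
  have := h0 0 3
  have := h0 1 2
  have := h0 1 3
  have := h0 2 2
  have := h0 3 3
  ext i j
  fin_cases i <;> fin_cases j <;> simp [A] <;> linarith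

theorem gap {s x y z : ℝ} (hx : 0 ≤ x) (hy : 0 ≤ y) (hz : 0 ≤ z) (h1 : s + x + y + z = 1)
    (h2 : s * s + x * x + y * y + z * z = s) : s = 1 ∨ s ≤ 1 / 2 := by
  by_contra h
  push Not at h
  have h3 : s < 1 := lt_of_le_of_ne (by linarith) h.1
  nlinarith [mul_nonneg hx hy, mul_nonneg hx hz, mul_nonneg hy hz,
    mul_pos (sub_pos.2 h3) (sub_pos.2 h.2)]

theorem perm_ex : ∀ k l : Fin 4, k ≠ l → ∃ σ : Equiv.Perm (Fin 4), σ 2 = k ∧ σ 3 = l := by
  decide

theorem ds_A : DS A := by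
  rintro B ⟨hs, h0, h1, -⟩ ⟨Q, hQ⟩
  have hs' : ∀ i j, B j i = B i j := fun i j => hs.apply i j
  have e2 : B * B = Q⁻¹ * (A * A) * Q := by
    rw [hQ]
    simp only [mul_assoc, Units.mul_inv_cancel_left]
  have e3 : B * B * B = B := by
    calc B * B * B = Q⁻¹ * (A * A * A) * Q := by
          rw [hQ]
          simp only [mul_assoc, Units.mul_inv_cancel_left]
      _ = B := by rw [A_cube, hQ]
  have t1 : ∑ i, B i i = 1 := by
    have : trace B = trace A := by rw [hQ, trace_units_conj']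
    rw [show trace A = 1 by simp [A, trace, Fin.sum_univ_four]; norm_num] at this
    exact this
  have t2 : ∑ i, (B * B) i i = 3 := by
    have : trace (B * B) = trace (A * A) := by rw [e2, trace_units_conj']
    rw [show trace (A * A) = 3 by simp [A, trace, Fin.sum_univ_four]; norm_num] at this
    exact this
  set F := B * B with hF
  have f0 : ∀ i j, 0 ≤ F i j := fun i j => by
    rw [hF, mul_apply]
    exact Finset.sum_nonneg fun k _ => mul_nonneg (h0 i k) (h0 k j)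
  have f1 : ∀ i, ∑ j, F i j = 1 := fun i => by
    simp only [hF, mul_apply]
    rw [Finset.sum_comm]
    simp only [← Finset.mul_sum, h1, mul_one]
  have fs : ∀ i j, F j i = F i j := fun i j => by
    simp only [hF, mul_apply]
    exact Finset.sum_congr rfl fun k _ => by rw [hs' k j, hs' i k, mul_comm]
  have f2 : ∀ i, ∑ j, F i j * F i j = F i i := fun i => by
    have : F * F = F := by rw [hF, ← mul_assoc, e3]
    rw [← congrFun (congrFun this i) i, mul_apply]
    exact Finset.sum_congr rfl fun k _ => by rw [fs i k]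
  have fd : ∀ i, F i i = ∑ j, B i j * B i j := fun i => by
    simp only [hF, mul_apply]
    exact Finset.sum_congr rfl fun k _ => by rw [hs' i k]
  have g : ∀ i, F i i = 1 ∨ F i i ≤ 1 / 2 := fun i => by
    have a1 := f1 i
    have a2 := f2 i
    simp only [Fin.sum_univ_four] at a1 a2
    fin_cases i
    · exact gap (f0 0 1) (f0 0 2) (f0 0 3) a1 a2
    · exact gap (f0 1 0) (f0 1 2) (f0 1 3) (by simp at a1 ⊢; linarith) (by simp at a2 ⊢; linarith)
    · exact gap (f0 2 0) (f0 2 1) (f0 2 3) (by simp at a1 ⊢; linarith) (by simp at a2 ⊢; linarith)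
    · exact gap (f0 3 0) (f0 3 1) (f0 3 2) (by simp at a1 ⊢; linarith) (by simp at a2 ⊢; linarith)
  obtain ⟨k, l, hkl, hk, hl⟩ : ∃ k l, k ≠ l ∧ F k k = 1 ∧ F l l = 1 := by
    rw [Fin.sum_univ_four] at t2
    rcases g 0 with g0 | g0 <;> rcases g 1 with g1 | g1 <;> rcases g 2 with g2 | g2 <;>
      rcases g 3 with g3 | g3 <;>
      first
      | linarith
      | exact ⟨0, 1, by decide, g0, g1⟩
      | exact ⟨0, 2, by decide, g0, g2⟩
      | exact ⟨0, 3, by decide, g0, g3⟩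
      | exact ⟨1, 2, by decide, g1, g2⟩
      | exact ⟨1, 3, by decide, g1, g3⟩
      | exact ⟨2, 3, by decide, g2, g3⟩
  obtain ⟨σ, rfl, rfl⟩ := perm_ex k l hkl
  have key : B.submatrix σ σ = A := by
    refine eq_A (fun i j => hs' _ _) (fun i j => h0 _ _) (fun i => ?_) ?_ ?_ ?_ ?_
    · exact (Equiv.sum_comp σ (B (σ i))).trans (h1 _)
    · exact (Equiv.sum_comp σ fun i => B i i).trans t1
    · rw [← t2, ← Equiv.sum_comp σ fun i => F i i]
      exact Finset.sum_congr rfl fun i _ => by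
        rw [fd]
        exact Equiv.sum_comp σ fun j => B (σ i) j * B (σ i) j
    · rw [← hk, fd]
      exact Equiv.sum_comp σ fun j => B (σ 2) j * B (σ 2) j
    · rw [← hl, fd]
      exact Equiv.sum_comp σ fun j => B (σ 3) j * B (σ 3) j
  refine ⟨σ, ?_⟩
  rw [← key, transpose_permMatrix, PEquiv.toMatrix_toPEquiv_mul, PEquiv.mul_toMatrix_toPEquiv]
  ext i j
  simp

theorem not_extreme : A ∉ Set.extremePoints ℝ (SDS 4) := by
  rintro ⟨-, h⟩
  have h1 := h (x₁ := !![1, 0, 0, 0; 0, 1, 0, 0; 0, 0, 0, 1; 0, 0, 1, 0])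
    ⟨by ext i j; fin_cases i <;> fin_cases j <;> rfl,
      fun i j => by fin_cases i <;> fin_cases j <;> simp,
      fun i => by fin_cases i <;> simp [Fin.sum_univ_four],
      fun i => by fin_cases i <;> simp [Fin.sum_univ_four]⟩
    (x₂ := !![0, 1, 0, 0; 1, 0, 0, 0; 0, 0, 0, 1; 0, 0, 1, 0])
    ⟨by ext i j; fin_cases i <;> fin_cases j <;> rfl,
      fun i j => by fin_cases i <;> fin_cases j <;> simp,
      fun i => by fin_cases i <;> simp [Fin.sum_univ_four],
      fun i => by fin_cases i <;> simp [Fin.sum_univ_four]⟩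
    ⟨1 / 2, 1 / 2, by norm_num, by norm_num, by norm_num, by
      ext i j
      fin_cases i <;> fin_cases j <;> simp [A] <;> norm_num⟩
  have h2 := congrFun (congrFun h1 0) 1
  simp [A] at h2

theorem result : ¬ ∀ (n : ℕ) (a : ℝ) (M : Matrix (Fin n) (Fin n) ℝ), 2 ≤ n → 0 < a → a ≤ n →
    M ∈ SDS n → M.trace = a → DS M →
    M ∈ segment ℝ 1 (C n) ∨ ∃ P ∈ Set.extremePoints ℝ (SDS n),
      M ∈ segment ℝ 1 P ∨ M ∈ segment ℝ (C n) P := by
  intro h
  have hA : A ∈ SDS 4 :=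
    ⟨by ext i j; fin_cases i <;> fin_cases j <;> rfl,
      fun i j => by fin_cases i <;> fin_cases j <;> simp [A],
      fun i => by fin_cases i <;> simp [A, Fin.sum_univ_four] <;> norm_num,
      fun i => by fin_cases i <;> simp [A, Fin.sum_univ_four] <;> norm_num⟩
  rcases h 4 1 A (by norm_num) one_pos (by norm_num) hA
    (by simp [A, trace, Fin.sum_univ_four]; norm_num) ds_A with
    ⟨s, t, -, -, h1, h2⟩ | ⟨P, hP, ⟨s, t, hs, ht, h1, h2⟩ | ⟨s, t, hs, ht, h1, h2⟩⟩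
  · have h3 := congrFun (congrFun h2 0) 2
    have h4 := congrFun (congrFun h2 2) 2
    simp [A, C] at h3 h4
    norm_num at h3
    linarith
  · have h3 := congrFun (congrFun h2 2) 2
    simp [A] at h3
    have h4 : s = 0 := by nlinarith [mul_nonneg ht (hP.1.2.1 2 2)]
    rw [h4, zero_add] at h1
    rw [h4, h1, zero_smul, zero_add, one_smul] at h2
    exact not_extreme (h2 ▸ hP)
  · have h3 := congrFun (congrFun h2 0) 2
    simp [A, C] at h3
    have h4 : s = 0 := by nlinarith [mul_nonneg ht (hP.1.2.1 0 2)]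
    rw [h4, zero_add] at h1
    rw [h4, h1, zero_smul, zero_add, one_smul] at h2
    exact not_extreme (h2 ▸ hP)

end Pool.Agent.Results.MP_3aa442_co.OrderFour
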